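import Pool.Agent.K3h16.FG.Stm

/-!
# Minimal exponents (brick for helper16, MP_e09b14_ag)
-/

set_option autoImplicit false

namespace Pool.Agent.K3h73.FG

open Pool.Agent.K3h16.FG Pool.Agent.R920.WC

section

variable {ι : Type} [DecidableEq ι] {a : ι → ℕ} {I : Finset ι}

/-- the relation of two elements -/
theorem pair_rel {i k : ι} (hk : k ∈ I) (hne : k ≠ i) :
    (fun x => if x = k then a i else 0) i = 0 ∧
      dg a I (fun x => if x = k then a i else 0) = a k * a i := by
  refine ⟨?_, ?_⟩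
  · show (if i = k then a i else 0) = 0
    rw [if_neg hne.symm]
  · rw [dg_single a I hk, mul_comm]

theorem exists_minExp (ha : ∀ i ∈ I, 0 < a i) (h2 : ∀ i ∈ I, ∃ k ∈ I, k ≠ i) :
    ∃ c, MinExp a c I := by
  classical
  have hex : ∀ i ∈ I, ∃ t : ℕ, 1 ≤ t ∧ ∃ m : ι → ℕ, m i = 0 ∧ dg a I m = t * a i := by
    intro i hi
    obtain ⟨k, hk, hne⟩ := h2 i hi
    exact ⟨a k, ha k hk, _, (pair_rel hk hne).1, (pair_rel hk hne).2⟩
  refine ⟨fun i => if h : ∃ t : ℕ, 1 ≤ t ∧ ∃ m : ι → ℕ, m i = 0 ∧ dg a I m = t * a i then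
    Nat.find h else 0, ?_, ?_, ?_⟩
  · intro i hi
    show 1 ≤ dite _ _ _
    rw [dif_pos (hex i hi)]
    exact (Nat.find_spec (hex i hi)).1
  · intro i hi
    show ∃ m : ι → ℕ, m i = 0 ∧ dg a I m = (dite _ _ _) * a i
    rw [dif_pos (hex i hi)]
    exact (Nat.find_spec (hex i hi)).2
  · intro i hi t m ht hm hd
    show (dite _ _ _) ≤ t
    rw [dif_pos (hex i hi)]
    exact Nat.find_min' (hex i hi) ⟨ht, m, hm, hd⟩

theorem minExp_unique (ha : ∀ i ∈ I, 0 < a i) {c : ι → ℕ} (hc : MinExp a c I) {i : ι}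
    (hi : i ∈ I) {t : ℕ} {m : ι → ℕ} (ht : t < c i) (hd : dg a I m = t * a i) :
    m i = t ∧ ∀ k ∈ I, k ≠ i → m k = 0 := by
  have h0 := ha i hi
  have h1 : m i ≤ t := by
    have := le_dg a I m hi
    rw [hd] at this
    exact Nat.le_of_mul_le_mul_right this h0
  have h2 := dg_sub_single a I m hi (le_refl (m i))
  have h3 : dg a I (fun k => if k = i then m k - m i else m k) = (t - m i) * a i := by
    rw [hd] at h2
    rw [Nat.sub_mul]
    omega
  have h4 : t - m i = 0 := by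
    by_contra hne
    have := hc.min i hi (t - m i) _ (Nat.one_le_iff_ne_zero.2 hne) (by simp) h3
    omega
  refine ⟨by omega, fun k hk hki => ?_⟩
  rw [h4, zero_mul] at h3
  have h5 := dg_zero a I ha h3 k hk
  simp only [if_neg hki] at h5
  exact h5

theorem minExp_le (ha : ∀ i ∈ I, 0 < a i) {c : ι → ℕ} (hc : MinExp a c I) {i : ι}
    (hi : i ∈ I) {q m : ι → ℕ} (h : Rel a q I i m) : c i ≤ q i := by
  by_contra hlt
  push Not at hlt
  obtain ⟨k, hk, hki, hmk⟩ := h.2
  exact hmk ((minExp_unique ha hc hi hlt h.1).2 k hk hki)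

end

theorem t_MIN : S_MIN := by
  intro ι _ a I ha
  refine ⟨exists_minExp ha, fun c hc => ⟨?_, ?_, ?_⟩⟩
  · intro i hi t m ht hd
    exact minExp_unique ha hc hi ht hd
  · intro i hi k hk hki
    exact hc.min i hi (a k) _ (ha k hk) (pair_rel hk hki).1 (pair_rel hk hki).2
  · intro q i hi m h
    exact minExp_le ha hc hi h

theorem t_CLO : S_MIN → S_CLO := by
  intro hMIN ι _ a q c C ha hcop hC hc
  have ha0 : ∀ i ∈ C, 0 < a i := fun i hi => by have := ha i hi; omega
  have hle : ∀ i ∈ C, c i ≤ q i := by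
    intro i hi
    obtain ⟨m, hm⟩ := hC.1.2 i hi
    exact minExp_le ha0 hc hi hm
  have hne : ∀ i ∈ C, ∀ m : ι → ℕ, m i = 0 → dg a C m = c i * a i → Rel a c C i m := by
    intro i hi m hm hd
    refine ⟨hd, ?_⟩
    by_contra hcon
    push Not at hcon
    have h1 : dg a C m = 0 := by
      refine Finset.sum_eq_zero fun k hk => ?_
      by_cases hki : k = i
      · rw [hki, hm, zero_mul]
      · rw [hcon k hk hki, zero_mul]
    rw [h1] at hd
    have h2 := hc.pos i hi
    have h3 := ha0 i hi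
    have h4 : 0 < c i * a i := Nat.mul_pos h2 h3
    omega
  refine ⟨⟨⟨hC.1.1, fun i hi => ?_⟩, ?_⟩, ?_, hle⟩
  · obtain ⟨m, hm, hd⟩ := hc.rel i hi
    exact ⟨m, hne i hi m hm hd⟩
  · intro U hU hcl
    refine hC.2 U hU ⟨hcl.1, fun i hi => ?_⟩
    obtain ⟨m, hm, k, hk, hki, hmk⟩ := hcl.2 i hi
    refine ⟨fun x => m x + if x = i then q i - c i else 0, ?_, k, hk, hki, ?_⟩
    · have h1 := dg_add_single a U m hi (q i - c i)
      have h2 : dg a U m = c i * a i := hm
      have h3 := hle i (hU hi)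
      show dg a U _ = q i * a i
      rw [h1, h2, ← add_mul]
      congr 1
      omega
    · show m k + (if k = i then q i - c i else 0) ≠ 0
      omega
  · intro i hi
    have h1 := hc.pos i hi
    by_contra hlt
    have h2 : c i = 1 := by omega
    obtain ⟨m, hm, hd⟩ := hc.rel i hi
    refine hC.irredundant ha hcop hi m ?_
    rw [h2, one_mul] at hd
    have h3 := dg_erase a C m hi
    rw [hm, zero_mul, zero_add] at h3
    exact h3.trans hd

end Pool.Agent.K3h73.FG
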